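import Mathlib

/-!
# MP_41928e_lc : an edge-interdiction path game without Markovian Nash equilibrium

Both players choose source-to-sink paths in the same layered graph; the attacker gets `1` exactly
when the two paths share no edge.  We give a layered graph with 10 vertices, 14 edges and 12 paths
in which the attacker's strategy is history-dependent in every Nash equilibrium.
-/

namespace Pool.Agent.Results.MP_41928e_lc.NoMarkov

open Finset

/-- A finite layered directed graph with layers `0, …, n` (`n ≥ 1`), all non-empty, whose layer `0`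
consists of the single source `s`; every edge goes from some layer to the next one. -/
structure LGraph where
  V : Type
  [fin : Fintype V]
  [dec : DecidableEq V]
  n : ℕ
  hn : 0 < n
  lay : V → ℕ
  lay_le : ∀ v, lay v ≤ n
  lay_surj : ∀ l ≤ n, ∃ v, lay v = l
  s : V
  source : ∀ v, lay v = 0 ↔ v = s
  E : V → V → Prop
  [decE : DecidableRel E]
  edge_lay : ∀ u v, E u v → lay v = lay u + 1

attribute [instance] LGraph.fin LGraph.dec LGraph.decE

variable (G : LGraph)

/-- Directed paths from the source to the last layer, as sequences of vertices. -/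
def Pth : Type :=
  {p : Fin (G.n + 1) → G.V // p 0 = G.s ∧ ∀ i : Fin G.n, G.E (p i.castSucc) (p i.succ)}

instance : Fintype (Pth G) := by unfold Pth; infer_instance
instance : DecidableEq (Pth G) := by unfold Pth; infer_instance

variable {G}

/-- Two paths have an edge in common. -/
def Share (p q : Pth G) : Prop :=
  ∃ i : Fin G.n, p.1 i.castSucc = q.1 i.castSucc ∧ p.1 i.succ = q.1 i.succ

instance (p q : Pth G) : Decidable (Share p q) := by unfold Share; infer_instance

/-- The payoff of the attacker. -/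
def pay (pd pa : Pth G) : ℝ := if Share pd pa then 0 else 1

/-- Mixed strategies. -/
def IsMixed (x : Pth G → ℝ) : Prop := (∀ p, 0 ≤ x p) ∧ ∑ p, x p = 1

/-- Expected payoff of the attacker. -/
noncomputable def U (xd xa : Pth G → ℝ) : ℝ := ∑ p, ∑ q, xd p * xa q * pay p q

/-- Nash equilibria `(xd, xa)` of the zero-sum game (the defender minimises, the attacker
maximises). -/
def IsNash (xd xa : Pth G → ℝ) : Prop :=
  IsMixed xd ∧ IsMixed xa ∧ (∀ x, IsMixed x → U xd x ≤ U xd xa) ∧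
    ∀ x, IsMixed x → U xd xa ≤ U x xa

/-- A mixed strategy is Markovian if it is given by transition probabilities. -/
def IsMarkov (x : Pth G → ℝ) : Prop :=
  ∃ t : G.V → G.V → ℝ, (∀ u v, G.E u v → 0 ≤ t u v) ∧
    (∀ u, (∃ v, G.E u v) → (∃ p : Pth G, x p ≠ 0 ∧ ∃ i, p.1 i = u) →
      ∑ v ∈ univ.filter (G.E u), t u v = 1) ∧
    ∀ p : Pth G, x p = ∏ i : Fin G.n, t (p.1 i.castSucc) (p.1 i.succ)

/-! ### The example -/

/-- The edges of the example. -/
def edges : List (Fin 10 × Fin 10) :=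
  [(0, 1), (0, 2), (1, 3), (1, 4), (1, 5), (2, 3), (2, 5), (3, 6), (3, 7), (4, 7), (5, 7),
    (6, 8), (7, 8), (7, 9)]

/-- The example. -/
def G₀ : LGraph where
  V := Fin 10
  n := 4
  hn := by decide
  lay := ![0, 1, 1, 2, 2, 2, 3, 3, 4, 4]
  lay_le := by decide
  lay_surj := by decide
  s := 0
  source := by decide
  E := fun u v => (u, v) ∈ edges
  edge_lay := by decide

/-- The vertex sequences of the twelve paths. -/
def seq : Fin 12 → Fin 5 → Fin 10 :=
  ![![0, 1, 3, 6, 8], ![0, 1, 3, 7, 8], ![0, 1, 3, 7, 9], ![0, 1, 4, 7, 8], ![0, 1, 4, 7, 9],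
    ![0, 1, 5, 7, 8], ![0, 1, 5, 7, 9], ![0, 2, 3, 6, 8], ![0, 2, 3, 7, 8], ![0, 2, 3, 7, 9],
    ![0, 2, 5, 7, 8], ![0, 2, 5, 7, 9]]

theorem seq_path : ∀ j, seq j 0 = 0 ∧ ∀ i : Fin 4, (seq j i.castSucc, seq j i.succ) ∈ edges := by
  decide

/-- Boolean check that the twelve sequences are all paths. -/
def chk : Bool :=
  edges.all fun e1 => !(e1.1 == 0) || edges.all fun e2 => !(e1.2 == e2.1) ||
    edges.all fun e3 => !(e2.2 == e3.1) || edges.all fun e4 => !(e3.2 == e4.1) ||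
      decide (∃ j, seq j 1 = e1.2 ∧ seq j 2 = e2.2 ∧ seq j 3 = e3.2 ∧ seq j 4 = e4.2)

theorem chk_true : chk = true := by decide

theorem seq_surj (a b c d : Fin 10) (h1 : ((0 : Fin 10), a) ∈ edges) (h2 : (a, b) ∈ edges)
    (h3 : (b, c) ∈ edges) (h4 : (c, d) ∈ edges) :
    ∃ j, seq j 1 = a ∧ seq j 2 = b ∧ seq j 3 = c ∧ seq j 4 = d := by
  have h := chk_true
  unfold chk at h
  have k1 := List.all_eq_true.1 h _ h1
  simp only [beq_self_eq_true, Bool.not_true, Bool.false_or] at k1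
  have k2 := List.all_eq_true.1 k1 _ h2
  simp only [beq_self_eq_true, Bool.not_true, Bool.false_or] at k2
  have k3 := List.all_eq_true.1 k2 _ h3
  simp only [beq_self_eq_true, Bool.not_true, Bool.false_or] at k3
  have k4 := List.all_eq_true.1 k3 _ h4
  simp only [beq_self_eq_true, Bool.not_true, Bool.false_or] at k4
  exact of_decide_eq_true k4

theorem seq_inj : ∀ j k, (∀ i, seq j i = seq k i) → j = k := by
  decide

/-- The twelve paths. -/
def P (j : Fin 12) : Pth G₀ := ⟨seq j, seq_path j⟩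

theorem P_bij : Function.Bijective P := by
  constructor
  · intro j k h
    exact seq_inj j k fun i => congrFun (congrArg Subtype.val h) i
  · intro p
    have h0 : p.1 0 = (0 : Fin 10) := p.2.1
    have e := p.2.2
    obtain ⟨j, h1, h2, h3, h4⟩ := seq_surj (p.1 (1 : Fin 5)) (p.1 (2 : Fin 5)) (p.1 (3 : Fin 5))
      (p.1 (4 : Fin 5)) (h0 ▸ e (0 : Fin 4)) (e (1 : Fin 4)) (e (2 : Fin 4)) (e (3 : Fin 4))
    refine ⟨j, Subtype.ext (funext fun i => ?_)⟩
    show seq j i = p.1 i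
    fin_cases i
    · exact ((seq_path j).1).trans h0.symm
    · exact h1
    · exact h2
    · exact h3
    · exact h4

/-- The twelve paths as an equivalence. -/
noncomputable def e : Fin 12 ≃ Pth G₀ := Equiv.ofBijective P P_bij

/-- The payoff matrix. -/
def M : Fin 12 → Fin 12 → ℕ := fun j k =>
  if ∃ i : Fin 4, seq j i.castSucc = seq k i.castSucc ∧ seq j i.succ = seq k i.succ then 0 else 1

theorem pay_P (j k : Fin 12) : pay (P j) (P k) = (M j k : ℝ) := by
  unfold pay M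
  have : Share (P j) (P k) ↔
    ∃ i : Fin 4, seq j i.castSucc = seq k i.castSucc ∧ seq j i.succ = seq k i.succ := Iff.rfl
  by_cases h : Share (P j) (P k)
  · rw [if_pos h, if_pos (this.1 h)]
    simp
  · rw [if_neg h, if_neg (fun h' => h (this.2 h'))]
    simp

theorem sum_P (f : Pth G₀ → ℝ) : ∑ p, f p = ∑ j, f (P j) := by
  rw [← Equiv.sum_comp e f]
  rfl

theorem U_eq (xd xa : Pth G₀ → ℝ) :
    U xd xa = ∑ j, xd (P j) * ∑ k, xa (P k) * (M j k : ℝ) := by
  unfold U
  rw [sum_P]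
  refine Finset.sum_congr rfl fun j _ => ?_
  rw [sum_P, Finset.mul_sum]
  refine Finset.sum_congr rfl fun k _ => ?_
  rw [pay_P]
  ring

theorem M_val : M = ![
    ![0, 0, 0, 0, 0, 0, 0, 0, 1, 1, 1, 1],
    ![0, 0, 0, 0, 0, 0, 0, 1, 0, 0, 0, 1],
    ![0, 0, 0, 0, 0, 0, 0, 1, 0, 0, 1, 0],
    ![0, 0, 0, 0, 0, 0, 0, 1, 0, 1, 0, 1],
    ![0, 0, 0, 0, 0, 0, 0, 1, 1, 0, 1, 0],
    ![0, 0, 0, 0, 0, 0, 0, 1, 0, 1, 0, 0],
    ![0, 0, 0, 0, 0, 0, 0, 1, 1, 0, 0, 0],
    ![0, 1, 1, 1, 1, 1, 1, 0, 0, 0, 0, 0],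
    ![1, 0, 0, 0, 1, 0, 1, 0, 0, 0, 0, 0],
    ![1, 0, 0, 1, 0, 1, 0, 0, 0, 0, 0, 0],
    ![1, 0, 1, 0, 1, 0, 0, 0, 0, 0, 0, 0],
    ![1, 1, 0, 1, 0, 0, 0, 0, 0, 0, 0, 0]] := by
  decide

/-- An optimal strategy of the attacker. -/
noncomputable def ya : Fin 12 → ℝ :=
  ![2 / 13, 0, 0, 2 / 13, 2 / 13, 0, 0, 3 / 13, 1 / 13, 1 / 13, 1 / 13, 1 / 13]

/-- An optimal strategy of the defender. -/
noncomputable def yd : Fin 12 → ℝ :=
  ![3 / 13, 1 / 13, 1 / 13, 0, 0, 1 / 13, 1 / 13, 2 / 13, 1 / 13, 1 / 13, 1 / 13, 1 / 13]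

theorem ya_guar (j : Fin 12) : ∑ k, ya k * (M j k : ℝ) ≥ 4 / 13 := by
  rw [M_val]
  fin_cases j <;> simp [Fin.sum_univ_succ, ya] <;> norm_num

theorem yd_guar (k : Fin 12) : ∑ j, yd j * (M j k : ℝ) ≤ 4 / 13 := by
  rw [M_val]
  fin_cases k <;> simp [Fin.sum_univ_succ, yd] <;> norm_num

/-- The strategy on paths given by a vector. -/
noncomputable def lift (y : Fin 12 → ℝ) : Pth G₀ → ℝ := fun p => y (e.symm p)

theorem lift_P (y : Fin 12 → ℝ) (j : Fin 12) : lift y (P j) = y j := by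
  unfold lift
  congr 1
  exact e.symm_apply_apply j

theorem lift_mixed (y : Fin 12 → ℝ) (h0 : ∀ j, 0 ≤ y j) (h1 : ∑ j, y j = 1) :
    IsMixed (lift y) := by
  refine ⟨fun p => h0 _, ?_⟩
  rw [sum_P]
  simpa only [lift_P] using h1

theorem ya_mixed : IsMixed (lift ya) := by
  refine lift_mixed _ (fun j => ?_) ?_
  · fin_cases j <;> simp [ya] <;> norm_num
  · simp [Fin.sum_univ_succ, ya]
    norm_num

theorem yd_mixed : IsMixed (lift yd) := by
  refine lift_mixed _ (fun j => ?_) ?_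
  · fin_cases j <;> simp [yd] <;> norm_num
  · simp [Fin.sum_univ_succ, yd]
    norm_num

theorem U_ya (x : Pth G₀ → ℝ) (hx : IsMixed x) : 4 / 13 ≤ U x (lift ya) := by
  rw [U_eq]
  simp only [lift_P]
  have h1 : ∑ j, x (P j) = 1 := by rw [← sum_P]; exact hx.2
  calc (4 / 13 : ℝ) = ∑ j, x (P j) * (4 / 13) := by rw [← Finset.sum_mul, h1, one_mul]
    _ ≤ _ := Finset.sum_le_sum fun j _ => mul_le_mul_of_nonneg_left (ya_guar j) (hx.1 _)

theorem U_yd (x : Pth G₀ → ℝ) (hx : IsMixed x) : U (lift yd) x ≤ 4 / 13 := by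
  rw [U_eq]
  simp only [lift_P]
  have h1 : ∑ j, x (P j) = 1 := by rw [← sum_P]; exact hx.2
  calc ∑ j, yd j * ∑ k, x (P k) * (M j k : ℝ)
      = ∑ k, x (P k) * ∑ j, yd j * (M j k : ℝ) := by
        simp only [Finset.mul_sum]
        rw [Finset.sum_comm]
        refine Finset.sum_congr rfl fun k _ => Finset.sum_congr rfl fun j _ => ?_
        ring
    _ ≤ ∑ k, x (P k) * (4 / 13) :=
        Finset.sum_le_sum fun k _ => mul_le_mul_of_nonneg_left (yd_guar k) (hx.1 _)
    _ = 4 / 13 := by rw [← Finset.sum_mul, h1, one_mul]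

/-- `(lift yd, lift ya)` is a Nash equilibrium. -/
theorem exists_nash : IsNash (lift yd) (lift ya) := by
  have h1 := U_ya _ yd_mixed
  have h2 := U_yd _ ya_mixed
  refine ⟨yd_mixed, ya_mixed, fun x hx => ?_, fun x hx => ?_⟩
  · exact (U_yd x hx).trans h1
  · exact h2.trans (U_ya x hx)

/-- Pure strategies. -/
noncomputable def pure (j : Fin 12) : Fin 12 → ℝ := fun k => if k = j then 1 else 0

theorem pure_mixed (j : Fin 12) : IsMixed (lift (pure j)) := by
  refine lift_mixed _ (fun k => ?_) ?_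
  · unfold pure
    split_ifs <;> norm_num
  · simp [pure]

theorem U_pure (j : Fin 12) (x : Pth G₀ → ℝ) :
    U (lift (pure j)) x = ∑ k, x (P k) * (M j k : ℝ) := by
  rw [U_eq]
  simp only [lift_P, pure]
  simp

/-- In every Nash equilibrium the attacker's strategy is optimal. -/
theorem opt {xd xa : Pth G₀ → ℝ} (h : IsNash xd xa) (j : Fin 12) :
    4 / 13 ≤ ∑ k, xa (P k) * (M j k : ℝ) := by
  rw [← U_pure]
  exact (U_ya xd h.1).trans ((h.2.2.1 _ ya_mixed).trans (h.2.2.2 _ (pure_mixed j)))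

theorem not_markov {xd xa : Pth G₀ → ℝ} (h : IsNash xd xa) : ¬ IsMarkov xa := by
  rintro ⟨t, _, _, ht⟩
  have hs : ∑ k, xa (P k) = 1 := by rw [← sum_P]; exact h.2.1.2
  have hopt := opt h
  have h0 : ∀ k, 0 ≤ xa (P k) := fun k => h.2.1.1 _
  rw [M_val] at hopt
  have o0 := hopt 0
  have o1 := hopt 1
  have o2 := hopt 2
  have o3 := hopt 3
  have o4 := hopt 4
  have o5 := hopt 5
  have o6 := hopt 6
  have o7 := hopt 7
  have o8 := hopt 8
  have o9 := hopt 9
  have o10 := hopt 10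
  have o11 := hopt 11
  simp [Fin.sum_univ_succ] at o0 o1 o2 o3 o4 o5 o6 o7 o8 o9 o10 o11
  simp [Fin.sum_univ_succ] at hs
  have p0 := h0 0
  have p1 := h0 1
  have p2 := h0 2
  have p3 := h0 3
  have p4 := h0 4
  have p5 := h0 5
  have p6 := h0 6
  have p7 := h0 7
  have p8 := h0 8
  have p9 := h0 9
  have p10 := h0 10
  have p11 := h0 11
  have x1 : xa (P 1) = 0 := le_antisymm (by linarith) p1
  have x0 : xa (P 0) = 2 / 13 := le_antisymm (by linarith) (by linarith)
  have x7 : xa (P 7) = 3 / 13 := le_antisymm (by linarith) (by linarith)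
  have x8 : xa (P 8) = 1 / 13 := le_antisymm (by linarith) (by linarith)
  let a : Fin 10 → G₀.V := id
  have t0 : xa (P 0) = t (a 0) (a 1) * t (a 1) (a 3) * t (a 3) (a 6) * t (a 6) (a 8) := by
    rw [ht (P 0)]
    exact Fin.prod_univ_four (fun i : Fin 4 => t (seq 0 i.castSucc) (seq 0 i.succ))
  have t1 : xa (P 1) = t (a 0) (a 1) * t (a 1) (a 3) * t (a 3) (a 7) * t (a 7) (a 8) := by
    rw [ht (P 1)]
    exact Fin.prod_univ_four (fun i : Fin 4 => t (seq 1 i.castSucc) (seq 1 i.succ))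
  have t7 : xa (P 7) = t (a 0) (a 2) * t (a 2) (a 3) * t (a 3) (a 6) * t (a 6) (a 8) := by
    rw [ht (P 7)]
    exact Fin.prod_univ_four (fun i : Fin 4 => t (seq 7 i.castSucc) (seq 7 i.succ))
  have t8 : xa (P 8) = t (a 0) (a 2) * t (a 2) (a 3) * t (a 3) (a 7) * t (a 7) (a 8) := by
    rw [ht (P 8)]
    exact Fin.prod_univ_four (fun i : Fin 4 => t (seq 8 i.castSucc) (seq 8 i.succ))
  have key : xa (P 1) * xa (P 7) = xa (P 0) * xa (P 8) := by
    rw [t0, t1, t7, t8]
    ring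
  rw [x0, x1, x7, x8] at key
  norm_num at key

/-- **Theorem.**  The answer to Q1 is negative: it is not true that for every layered graph the
edge-interdiction path game has a Nash equilibrium in which both players use Markovian strategies.
In the layered graph `G₀` there is a Nash equilibrium, and the attacker's strategy is not Markovian
in any Nash equilibrium. -/
theorem result :
    (¬ ∀ G : LGraph, ∃ xd xa : Pth G → ℝ, IsNash xd xa ∧ IsMarkov xd ∧ IsMarkov xa) ∧
    ∃ G : LGraph, (∃ xd xa : Pth G → ℝ, IsNash xd xa) ∧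
      ∀ xd xa : Pth G → ℝ, IsNash xd xa → ¬ IsMarkov xa := by
  refine ⟨fun h => ?_, G₀, ⟨_, _, exists_nash⟩, fun xd xa h => not_markov h⟩
  obtain ⟨xd, xa, h1, _, h3⟩ := h G₀
  exact not_markov h1 h3

end Pool.Agent.Results.MP_41928e_lc.NoMarkov
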